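import Mathlib
import Pool.Agent.H895R2.SB.Ends
import Pool.Agent.H895R2.SB.Neg
import Pool.Agent.H895R2.SB.Pos

/-! Splitting over a two-ended subgroup is not determined by a Bestvina boundary: the groups
`F₂ × ℤ` and `F₂ × F₂` have a common Z-structure boundary, the first one splits over a two-ended
subgroup and the second one does not. -/

namespace Pool.Agent.Results.MP_ff8665_gt.SplittingNotDetected

open Pool.Agent.Helper376.CL Pool.Agent.H895R2.SB

theorem result :
    (IsZBoundary (FreeGroup (Fin 2) × Multiplicative ℤ) (OnePoint ((ℕ × (ℕ → Fin 3)) × ℝ)) ∧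
      SplitsOverTwoEnded (FreeGroup (Fin 2) × Multiplicative ℤ)) ∧
    (IsZBoundary (FreeGroup (Fin 2) × FreeGroup (Fin 2)) (OnePoint ((ℕ × (ℕ → Fin 3)) × ℝ)) ∧
      ¬ SplitsOverTwoEnded (FreeGroup (Fin 2) × FreeGroup (Fin 2))) :=
  ⟨⟨bd_FZ, splits_FZ⟩, bd_FF, not_splits_FF⟩

end Pool.Agent.Results.MP_ff8665_gt.SplittingNotDetected
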